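import Mathlib

/-!
# Plancherel measure: sums of the first `r` rows are not log-concave

For every `r ≥ 2` and all sufficiently large `n`, the law of `S_r = λ_1 + ... + λ_r` under the
Plancherel measure `μ_n` is not log-concave: `P(S_r = 2r-2) P(S_r = 2r) > P(S_r = 2r-1)²`.
The reason: the shapes with `S_r = 2r - 2` or `S_r = 2r - 1` have one long column and carry
polynomially many (in `n`) standard Young tableaux, while those with `S_r = 2r` include the two
column shapes, with exponentially many.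
-/

set_option autoImplicit false

namespace Pool.Agent.Results.MP_64a7c6_pr.PartialSumsNotLogConcave

open Finset

/-- A standard Young tableau of shape `μ` (a partition with `μ.card` boxes): a bijection of the
boxes with `0, ..., μ.card - 1` that increases along the rows and the columns. -/
def IsStandard (μ : YoungDiagram) (T : μ.cells → Fin μ.card) : Prop :=
  Function.Bijective T ∧ ∀ a b : μ.cells, a.1.1 ≤ b.1.1 → a.1.2 ≤ b.1.2 → T a ≤ T b

/-- `f^μ`, the number of standard Young tableaux of shape `μ`. -/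
noncomputable def numSYT (μ : YoungDiagram) : ℕ :=
  Nat.card {T : μ.cells → Fin μ.card // IsStandard μ T}

theorem cells_subset (μ : YoungDiagram) : μ.cells ⊆ range μ.card ×ˢ range μ.card := by
  intro c hc
  obtain ⟨i, j⟩ := c
  rw [mem_product, mem_range, mem_range]
  have hc' : (i, j) ∈ μ := hc
  constructor
  · have h1 : (Finset.range (i + 1)) ×ˢ ({j} : Finset ℕ) ⊆ μ.cells := by
      intro x hx
      rw [mem_product, mem_range, mem_singleton] at hx
      have : x = (x.1, j) := by rw [← hx.2]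
      rw [this]
      exact μ.up_left_mem (by omega) le_rfl hc'
    have h2 := card_le_card h1
    rw [card_product, card_range, card_singleton, mul_one] at h2
    change i + 1 ≤ μ.card at h2
    omega
  · have h1 : ({i} : Finset ℕ) ×ˢ (Finset.range (j + 1)) ⊆ μ.cells := by
      intro x hx
      rw [mem_product, mem_range, mem_singleton] at hx
      have : x = (i, x.2) := by rw [← hx.1]
      rw [this]
      exact μ.up_left_mem le_rfl (by omega) hc'
    have h2 := card_le_card h1
    rw [card_product, card_range, card_singleton, one_mul] at h2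
    change j + 1 ≤ μ.card at h2
    omega

theorem cells_injective : Function.Injective YoungDiagram.cells := by
  intro μ ν h
  exact YoungDiagram.ext h

/-- There are finitely many Young diagrams with `n` boxes. -/
theorem finite_diagrams (n : ℕ) : {μ : YoungDiagram | μ.card = n}.Finite := by
  refine Set.Finite.of_finite_image (f := YoungDiagram.cells) ?_ cells_injective.injOn
  refine ((range n ×ˢ range n).powerset : Finset (Finset (ℕ × ℕ))).finite_toSet.subset ?_
  rintro s ⟨μ, hμ, rfl⟩
  rw [mem_coe, mem_powerset]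
  have := cells_subset μ
  rwa [hμ] at this

/-- The partitions of `n`, as Young diagrams with `n` boxes; `μ.rowLen i` is the part
`λ_{i+1}`. -/
noncomputable def partitionsOf (n : ℕ) : Finset YoungDiagram := (finite_diagrams n).toFinset

theorem mem_partitionsOf {n : ℕ} {μ : YoungDiagram} : μ ∈ partitionsOf n ↔ μ.card = n := by
  simp [partitionsOf]

/-- The sum of the first `r` parts, `λ_1 + ... + λ_r`. -/
def firstRows (r : ℕ) (μ : YoungDiagram) : ℕ := ∑ i ∈ range r, μ.rowLen i

/-- The probability that `λ_1 + ... + λ_r = j` under the Plancherel measure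
`μ_n(λ) = (f^λ)² / n!` on the partitions of `n`. -/
noncomputable def planchS (n r j : ℕ) : ℝ :=
  ∑ μ ∈ partitionsOf n with firstRows r μ = j, (numSYT μ : ℝ) ^ 2 / (n.factorial : ℝ)

/-! ### Every shape has a standard tableau -/

theorem one_le_numSYT (μ : YoungDiagram) : 1 ≤ numSYT μ := by
  unfold numSYT
  have hne : Nonempty {T : μ.cells → Fin μ.card // IsStandard μ T} := by
    have hcard : (μ.cells.map (toLex (α := ℕ × ℕ)).toEmbedding).card = μ.card := card_map _
    have hmem : ∀ a : μ.cells, toLex a.1 ∈ μ.cells.map (toLex (α := ℕ × ℕ)).toEmbedding :=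
      fun a => mem_map_of_mem _ a.2
    refine ⟨⟨fun a => ((μ.cells.map (toLex (α := ℕ × ℕ)).toEmbedding).orderIsoOfFin hcard).symm
      ⟨toLex a.1, hmem a⟩, ?_, fun a b h1 h2 => ?_⟩⟩
    · rw [Fintype.bijective_iff_injective_and_card]
      constructor
      · intro a b hab
        have h1 := OrderIso.injective _ hab
        rw [Subtype.mk.injEq] at h1
        exact Subtype.ext (toLex.injective h1)
      · rw [Fintype.card_coe, Fintype.card_fin]
    · refine OrderIso.monotone _ ?_
      rw [Subtype.mk_le_mk, Prod.Lex.le_iff]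
      change a.1.1 < b.1.1 ∨ a.1.1 = b.1.1 ∧ a.1.2 ≤ b.1.2
      omega
  rw [Nat.one_le_iff_ne_zero, Nat.card_ne_zero]
  exact ⟨hne, inferInstance⟩

/-! ### Upper bound: shapes with `S_r = 2r - 1` -/

/-- The boxes outside the first column. -/
def out (μ : YoungDiagram) : Finset (ℕ × ℕ) := μ.cells.filter fun c => c.2 ≠ 0

theorem out_subset {r : ℕ} {μ : YoungDiagram} (hr : 1 ≤ r) (h : firstRows r μ = 2 * r - 1) :
    out μ ⊆ range r ×ˢ range (2 * r) := by
  have hlast : μ.rowLen (r - 1) ≤ 1 := by
    by_contra hlt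
    have h1 : ∑ i ∈ range r, 2 ≤ firstRows r μ := by
      refine sum_le_sum fun i hi => ?_
      have := μ.rowLen_anti i (r - 1) (by rw [mem_range] at hi; omega)
      omega
    rw [sum_const, card_range, smul_eq_mul] at h1
    omega
  rintro ⟨i, j⟩ hc
  rw [out, mem_filter, YoungDiagram.mem_cells, YoungDiagram.mem_iff_lt_rowLen] at hc
  simp only at hc
  have hi : i < r := by
    by_contra hir
    have := μ.rowLen_anti (r - 1) i (by omega)
    omega
  have hle : μ.rowLen i ≤ firstRows r μ :=
    single_le_sum (f := fun i => μ.rowLen i) (fun _ _ => Nat.zero_le _) (mem_range.2 hi)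
  rw [mem_product, mem_range, mem_range]
  constructor
  · exact hi
  · change j < 2 * r
    omega

theorem card_eq (μ : YoungDiagram) : μ.card = μ.colLen 0 + (out μ).card := by
  have h := Finset.card_filter_add_card_filter_not (s := μ.cells) (fun c : ℕ × ℕ => c.2 = 0)
  have h1 : μ.cells.filter (fun c : ℕ × ℕ => c.2 = 0) = μ.col 0 := rfl
  rw [h1, ← YoungDiagram.colLen_eq_card] at h
  exact h.symm

theorem eq_of_out {μ ν : YoungDiagram} (hc : μ.card = ν.card) (h : out μ = out ν) : μ = ν := by
  have h0 : μ.colLen 0 = ν.colLen 0 := by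
    have h1 := card_eq μ
    have h2 := card_eq ν
    rw [h] at h1
    omega
  apply cells_injective
  ext ⟨i, j⟩
  by_cases hj : j = 0
  · subst hj
    rw [YoungDiagram.mem_cells, YoungDiagram.mem_cells, YoungDiagram.mem_iff_lt_colLen,
      YoungDiagram.mem_iff_lt_colLen, h0]
  · have h1 : (i, j) ∈ out μ ↔ (i, j) ∈ μ.cells := by simp [out, hj]
    have h2 : (i, j) ∈ out ν ↔ (i, j) ∈ ν.cells := by simp [out, hj]
    rw [← h1, ← h2, h]

theorem card_shapes_le {n r : ℕ} (hr : 1 ≤ r) :
    ((partitionsOf n).filter fun μ => firstRows r μ = 2 * r - 1).card ≤ 2 ^ (2 * r ^ 2) := by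
  have h1 : ((partitionsOf n).filter fun μ => firstRows r μ = 2 * r - 1).card ≤
      ((range r ×ˢ range (2 * r)).powerset : Finset (Finset (ℕ × ℕ))).card := by
    refine card_le_card_of_injOn out ?_ ?_
    · intro μ hμ
      rw [mem_coe, mem_filter] at hμ
      rw [mem_coe, mem_powerset]
      exact out_subset hr hμ.2
    · intro μ hμ ν hν h
      rw [mem_coe, mem_filter, mem_partitionsOf] at hμ hν
      exact eq_of_out (by rw [hμ.1, hν.1]) h
  refine h1.trans ?_
  rw [card_powerset, card_product, card_range, card_range]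
  apply le_of_eq
  congr 1
  ring

/-- A standard tableau is determined by its entries outside the first column. -/
theorem numSYT_le {n : ℕ} {μ : YoungDiagram} (hμ : μ.card = n) (hn : 1 ≤ n) {K : ℕ}
    (hK : (out μ).card ≤ K) : numSYT μ ≤ n ^ K := by
  subst hμ
  have hinj : Function.Injective
      (fun (T : {T : μ.cells → Fin μ.card // IsStandard μ T}) (c : out μ) =>
        T.1 ⟨c.1, (mem_filter.1 c.2).1⟩) := by
    intro T T' h
    have hout : ∀ a : μ.cells, a.1.2 ≠ 0 → T.1 a = T'.1 a := by
      intro a ha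
      exact congrFun h ⟨a.1, mem_filter.2 ⟨a.2, ha⟩⟩
    -- restriction to the first column
    have hmem : ∀ i : Fin (μ.colLen 0), (i.1, 0) ∈ μ.cells := fun i => by
      rw [YoungDiagram.mem_cells, YoungDiagram.mem_iff_lt_colLen]
      exact i.2
    let g : {T : μ.cells → Fin μ.card // IsStandard μ T} → Fin (μ.colLen 0) → Fin μ.card :=
      fun T i => T.1 ⟨(i.1, 0), hmem i⟩
    have hmono : ∀ T, StrictMono (g T) := by
      intro T
      have hm : Monotone (g T) := fun i j hij => T.2.2 _ _ hij le_rfl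
      refine hm.strictMono_of_injective fun i j hij => ?_
      have := T.2.1.1 hij
      rw [Subtype.mk.injEq, Prod.mk.injEq] at this
      exact Fin.ext this.1
    have hrange : ∀ T : {T : μ.cells → Fin μ.card // IsStandard μ T},
        Set.range (g T) = {x | ∀ a : μ.cells, a.1.2 ≠ 0 → T.1 a ≠ x} := by
      intro T
      ext x
      constructor
      · rintro ⟨i, rfl⟩ a ha hax
        have := T.2.1.1 hax
        rw [this] at ha
        exact ha rfl
      · intro hx
        obtain ⟨a, ha⟩ := T.2.1.2 x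
        have h0 : a.1.2 = 0 := by
          by_contra h0
          exact hx a h0 ha
        obtain ⟨⟨i, j⟩, hij⟩ := a
        simp only at h0
        subst h0
        have hij' : (i, 0) ∈ μ := hij
        rw [YoungDiagram.mem_iff_lt_colLen] at hij'
        exact ⟨⟨i, hij'⟩, ha⟩
    have hg : g T = g T' := by
      rw [← StrictMono.range_inj (hmono T) (hmono T'), hrange, hrange]
      ext x
      constructor
      · intro hx a ha
        rw [← hout a ha]
        exact hx a ha
      · intro hx a ha
        rw [hout a ha]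
        exact hx a ha
    apply Subtype.ext
    funext a
    by_cases ha : a.1.2 = 0
    · obtain ⟨⟨i, j⟩, hij⟩ := a
      simp only at ha
      subst ha
      have hij' : (i, 0) ∈ μ := hij
      rw [YoungDiagram.mem_iff_lt_colLen] at hij'
      exact congrFun hg ⟨i, hij'⟩
    · exact hout a ha
  unfold numSYT
  refine (Nat.card_le_card_of_injective _ hinj).trans ?_
  rw [Nat.card_eq_fintype_card, Fintype.card_fun, Fintype.card_fin, Fintype.card_coe]
  exact Nat.pow_le_pow_right hn hK

theorem planchS_upper {n r : ℕ} (hn : 1 ≤ n) (hr : 1 ≤ r) :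
    planchS n r (2 * r - 1) ≤ (2 ^ (2 * r ^ 2) * ((n : ℝ) ^ (2 * r ^ 2)) ^ 2) / n.factorial := by
  unfold planchS
  have h1 : ∀ μ ∈ (partitionsOf n).filter (fun μ => firstRows r μ = 2 * r - 1),
      (numSYT μ : ℝ) ^ 2 / (n.factorial : ℝ) ≤ ((n : ℝ) ^ (2 * r ^ 2)) ^ 2 / n.factorial := by
    intro μ hμ
    rw [mem_filter, mem_partitionsOf] at hμ
    have h2 : numSYT μ ≤ n ^ (2 * r ^ 2) := by
      refine numSYT_le hμ.1 hn ?_
      refine (card_le_card (out_subset hr hμ.2)).trans ?_
      rw [card_product, card_range, card_range]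
      apply le_of_eq
      ring
    have h3 : (numSYT μ : ℝ) ≤ (n : ℝ) ^ (2 * r ^ 2) := by exact_mod_cast h2
    gcongr
  refine (sum_le_card_nsmul _ _ _ h1).trans ?_
  rw [nsmul_eq_mul, mul_div_assoc]
  have h4 : (((partitionsOf n).filter fun μ => firstRows r μ = 2 * r - 1).card : ℝ) ≤
      2 ^ (2 * r ^ 2) := by exact_mod_cast card_shapes_le hr
  gcongr

theorem planchS_nonneg (n r j : ℕ) : 0 ≤ planchS n r j :=
  sum_nonneg fun _ _ => by positivity

/-- A lower bound from a single shape. -/
theorem planchS_lower {n r j : ℕ} {μ : YoungDiagram} (hμ : μ.card = n)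
    (hj : firstRows r μ = j) {M : ℕ} (hM : M ≤ numSYT μ) :
    (M : ℝ) ^ 2 / n.factorial ≤ planchS n r j := by
  unfold planchS
  have hmem : μ ∈ (partitionsOf n).filter fun μ => firstRows r μ = j :=
    mem_filter.2 ⟨mem_partitionsOf.2 hμ, hj⟩
  have h1 : (numSYT μ : ℝ) ^ 2 / (n.factorial : ℝ) ≤
      ∑ μ ∈ (partitionsOf n).filter (fun μ => firstRows r μ = j),
        (numSYT μ : ℝ) ^ 2 / (n.factorial : ℝ) :=
    single_le_sum (f := fun μ => (numSYT μ : ℝ) ^ 2 / (n.factorial : ℝ))
      (fun _ _ => by positivity) hmem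
  refine le_trans ?_ h1
  have h2 : (M : ℝ) ≤ numSYT μ := by exact_mod_cast hM
  gcongr

/-! ### The hook with `S_r = 2r - 2` -/

/-- The hook with first row `r - 1` and first column `n - r + 2`. -/
def hook (n r : ℕ) (hr : 2 ≤ r) (hn : r ≤ n) : YoungDiagram where
  cells := (range n ×ˢ range n).filter fun c =>
    (c.1 = 0 ∧ c.2 < r - 1) ∨ (c.2 = 0 ∧ c.1 < n - r + 2)
  isLowerSet := by
    rintro ⟨i, j⟩ ⟨i', j'⟩ hle hc
    rw [Prod.mk_le_mk] at hle
    simp only [coe_filter, mem_product, mem_range, Set.mem_ofPred_eq] at hc ⊢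
    omega

theorem mem_hook {n r : ℕ} {hr : 2 ≤ r} {hn : r ≤ n} {i j : ℕ} :
    (i, j) ∈ hook n r hr hn ↔ (i = 0 ∧ j < r - 1) ∨ (j = 0 ∧ i < n - r + 2) := by
  rw [← YoungDiagram.mem_cells]
  simp only [hook, mem_filter, mem_product, mem_range]
  omega

theorem card_hook {n r : ℕ} (hr : 2 ≤ r) (hn : r ≤ n) : (hook n r hr hn).card = n := by
  have h : (hook n r hr hn).cells =
      (({0} : Finset ℕ) ×ˢ range (r - 1)) ∪ ((Finset.Ico 1 (n - r + 2)) ×ˢ ({0} : Finset ℕ)) := by
    ext ⟨i, j⟩
    rw [YoungDiagram.mem_cells, mem_hook]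
    simp only [mem_union, mem_product, mem_singleton, mem_range, Finset.mem_Ico]
    omega
  unfold YoungDiagram.card
  rw [h, card_union_of_disjoint]
  · simp only [card_product, card_singleton, card_range, Nat.card_Ico]
    omega
  · rw [disjoint_left]
    rintro ⟨i, j⟩ h1 h2
    simp only [mem_product, mem_singleton, mem_range, Finset.mem_Ico] at h1 h2
    omega

theorem firstRows_hook {n r : ℕ} (hr : 2 ≤ r) (hn : 2 * r ≤ n) :
    firstRows r (hook n r hr (by omega)) = 2 * r - 2 := by
  have h0 : (hook n r hr (by omega)).rowLen 0 = r - 1 := by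
    apply le_antisymm
    · by_contra hlt
      push Not at hlt
      rw [← YoungDiagram.mem_iff_lt_rowLen, mem_hook] at hlt
      omega
    · by_contra hlt
      have h1 : ¬ (r - 2 < (hook n r hr (by omega)).rowLen 0) := by omega
      rw [← YoungDiagram.mem_iff_lt_rowLen, mem_hook] at h1
      omega
  have h1 : ∀ i, 1 ≤ i → i < r → (hook n r hr (by omega)).rowLen i = 1 := by
    intro i hi hir
    apply le_antisymm
    · by_contra hlt
      push Not at hlt
      rw [← YoungDiagram.mem_iff_lt_rowLen, mem_hook] at hlt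
      omega
    · by_contra hlt
      have h1 : ¬ (0 < (hook n r hr (by omega)).rowLen i) := by omega
      rw [← YoungDiagram.mem_iff_lt_rowLen, mem_hook] at h1
      omega
  unfold firstRows
  obtain ⟨s, rfl⟩ : ∃ s, r = s + 1 := ⟨r - 1, by omega⟩
  rw [sum_range_succ', h0, sum_congr rfl (g := fun _ => 1)]
  · simp
    omega
  · intro i hi
    rw [mem_range] at hi
    exact h1 _ (by omega) (by omega)

/-! ### The two column shape with `S_r = 2r` -/

/-- Two columns of lengths `⌈n/2⌉, ⌊n/2⌋`. -/
def twoCol (n : ℕ) : YoungDiagram where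
  cells := (range n ×ˢ range 2).filter fun c => 2 * c.1 + c.2 < n
  isLowerSet := by
    rintro ⟨i, j⟩ ⟨i', j'⟩ hle hc
    rw [Prod.mk_le_mk] at hle
    simp only [coe_filter, mem_product, mem_range, Set.mem_ofPred_eq] at hc ⊢
    omega

theorem mem_twoCol {n i j : ℕ} : (i, j) ∈ twoCol n ↔ j < 2 ∧ 2 * i + j < n := by
  rw [← YoungDiagram.mem_cells]
  simp only [twoCol, mem_filter, mem_product, mem_range]
  omega

/-- The reading number of a box. -/
def rd (c : ℕ × ℕ) : ℕ := 2 * c.1 + c.2

theorem image_rd (n : ℕ) : (twoCol n).cells.image rd = range n := by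
  ext m
  simp only [mem_image, mem_range]
  constructor
  · rintro ⟨⟨i, j⟩, hc, rfl⟩
    rw [YoungDiagram.mem_cells, mem_twoCol] at hc
    exact hc.2
  · intro hm
    refine ⟨(m / 2, m % 2), ?_, ?_⟩
    · rw [YoungDiagram.mem_cells, mem_twoCol]
      omega
    · simp only [rd]
      omega

theorem rd_inj {n : ℕ} : Set.InjOn rd (twoCol n).cells := by
  rintro ⟨i, j⟩ hc ⟨i', j'⟩ hc' h
  rw [mem_coe, YoungDiagram.mem_cells, mem_twoCol] at hc hc'
  simp only [rd] at h
  rw [Prod.mk.injEq]
  omega

theorem card_twoCol (n : ℕ) : (twoCol n).card = n := by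
  unfold YoungDiagram.card
  rw [← card_image_of_injOn rd_inj, image_rd, card_range]

theorem firstRows_twoCol {n r : ℕ} (hn : 2 * r ≤ n) : firstRows r (twoCol n) = 2 * r := by
  have h1 : ∀ i, i < r → (twoCol n).rowLen i = 2 := by
    intro i hir
    apply le_antisymm
    · by_contra hlt
      push Not at hlt
      rw [← YoungDiagram.mem_iff_lt_rowLen, mem_twoCol] at hlt
      omega
    · by_contra hlt
      have h1 : ¬ (1 < (twoCol n).rowLen i) := by omega
      rw [← YoungDiagram.mem_iff_lt_rowLen, mem_twoCol] at h1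
      omega
  unfold firstRows
  rw [sum_congr rfl (g := fun _ => 2)]
  · simp [mul_comm]
  · intro i hi
    exact h1 i (mem_range.1 hi)

/-- Swap `4k+1` and `4k+2` for the `k` with `ε k`. -/
def sw (n : ℕ) (ε : Fin (n / 4) → Bool) (m : ℕ) : ℕ :=
  if h : m / 4 < n / 4 then
    if ε ⟨m / 4, h⟩ = true then
      if m % 4 = 1 then m + 1 else if m % 4 = 2 then m - 1 else m
    else m
  else m

theorem sw_lt {n : ℕ} (ε : Fin (n / 4) → Bool) {m : ℕ} (hm : m < n) : sw n ε m < n := by
  unfold sw
  split_ifs <;> omega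

theorem sw_div {n : ℕ} (ε : Fin (n / 4) → Bool) (m : ℕ) : sw n ε m / 4 = m / 4 := by
  unfold sw
  split_ifs <;> omega

theorem sw_true {n : ℕ} (ε : Fin (n / 4) → Bool) {m : ℕ} (h : m / 4 < n / 4)
    (he : ε ⟨m / 4, h⟩ = true) :
    sw n ε m = if m % 4 = 1 then m + 1 else if m % 4 = 2 then m - 1 else m := by
  unfold sw
  rw [dif_pos h, if_pos he]

theorem sw_sw {n : ℕ} (ε : Fin (n / 4) → Bool) (m : ℕ) : sw n ε (sw n ε m) = m := by
  have hd := sw_div ε m
  by_cases h : m / 4 < n / 4
  · by_cases he : ε ⟨m / 4, h⟩ = true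
    · have e1 := sw_true ε h he
      have h' : sw n ε m / 4 < n / 4 := by rw [hd]; exact h
      have he' : ε ⟨sw n ε m / 4, h'⟩ = true := by
        have : (⟨sw n ε m / 4, h'⟩ : Fin (n / 4)) = ⟨m / 4, h⟩ := Fin.ext hd
        rw [this, he]
      rw [sw_true ε h' he', e1]
      split_ifs <;> omega
    · have e1 : sw n ε m = m := by
        unfold sw
        rw [dif_pos h, if_neg he]
      rw [e1, e1]
  · have e1 : sw n ε m = m := by
      unfold sw
      rw [dif_neg h]
    rw [e1, e1]

theorem sw_mono {n : ℕ} (ε : Fin (n / 4) → Bool) {i j i' j' : ℕ} (hj : j < 2) (hj' : j' < 2)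
    (hi : i ≤ i') (hjj : j ≤ j') : sw n ε (2 * i + j) ≤ sw n ε (2 * i' + j') := by
  by_cases heq : (2 * i + j) / 4 = (2 * i' + j') / 4
  · by_cases h : (2 * i + j) / 4 < n / 4
    · have h' : (2 * i' + j') / 4 < n / 4 := by rw [← heq]; exact h
      by_cases he : ε ⟨(2 * i + j) / 4, h⟩ = true
      · have he' : ε ⟨(2 * i' + j') / 4, h'⟩ = true := by
          have : (⟨(2 * i' + j') / 4, h'⟩ : Fin (n / 4)) = ⟨(2 * i + j) / 4, h⟩ :=
            Fin.ext heq.symm
          rw [this, he]
        unfold sw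
        rw [dif_pos h, if_pos he, dif_pos h', if_pos he']
        split_ifs <;> omega
      · have he' : ¬ ε ⟨(2 * i' + j') / 4, h'⟩ = true := by
          have : (⟨(2 * i' + j') / 4, h'⟩ : Fin (n / 4)) = ⟨(2 * i + j) / 4, h⟩ :=
            Fin.ext heq.symm
          rw [this]
          exact he
        unfold sw
        rw [dif_pos h, if_neg he, dif_pos h', if_neg he']
        omega
    · have h' : ¬ (2 * i' + j') / 4 < n / 4 := by rw [← heq]; exact h
      unfold sw
      rw [dif_neg h, dif_neg h']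
      omega
  · have h1 := sw_div ε (2 * i + j)
    have h2 := sw_div ε (2 * i' + j')
    omega

theorem numSYT_twoCol (n : ℕ) : 2 ^ (n / 4) ≤ numSYT (twoCol n) := by
  have hc := card_twoCol n
  have hlt : ∀ a : (twoCol n).cells, rd a.1 < n := fun a => by
    have := a.2
    obtain ⟨⟨i, j⟩, hij⟩ := a
    rw [YoungDiagram.mem_cells, mem_twoCol] at hij
    exact hij.2
  let T : (Fin (n / 4) → Bool) → (twoCol n).cells → Fin (twoCol n).card :=
    fun ε a => ⟨sw n ε (rd a.1), by rw [hc]; exact sw_lt ε (hlt a)⟩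
  have hinjT : ∀ ε, Function.Injective (T ε) := by
    intro ε a b hab
    have h1 : sw n ε (rd a.1) = sw n ε (rd b.1) := congrArg Fin.val hab
    have h2 : rd a.1 = rd b.1 := by
      rw [← sw_sw ε (rd a.1), h1, sw_sw]
    exact Subtype.ext (rd_inj a.2 b.2 h2)
  have hstd : ∀ ε, IsStandard (twoCol n) (T ε) := by
    intro ε
    constructor
    · rw [Fintype.bijective_iff_injective_and_card]
      refine ⟨hinjT ε, ?_⟩
      rw [Fintype.card_coe, Fintype.card_fin]
    · rintro ⟨⟨i, j⟩, hij⟩ ⟨⟨i', j'⟩, hij'⟩ h1 h2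
      have hj : j < 2 := by
        rw [YoungDiagram.mem_cells, mem_twoCol] at hij
        exact hij.1
      have hj' : j' < 2 := by
        rw [YoungDiagram.mem_cells, mem_twoCol] at hij'
        exact hij'.1
      exact sw_mono ε hj hj' h1 h2
  let Φ : (Fin (n / 4) → Bool) →
      {T : (twoCol n).cells → Fin (twoCol n).card // IsStandard (twoCol n) T} :=
    fun ε => ⟨T ε, hstd ε⟩
  have hΦ : Function.Injective Φ := by
    intro ε ε' h
    funext k
    have hk : (2 * k.1, 1) ∈ (twoCol n).cells := by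
      rw [YoungDiagram.mem_cells, mem_twoCol]
      have := k.2
      omega
    have h1 : T ε ⟨(2 * k.1, 1), hk⟩ = T ε' ⟨(2 * k.1, 1), hk⟩ :=
      congrFun (congrArg Subtype.val h) _
    have h2 : sw n ε (4 * k.1 + 1) = sw n ε' (4 * k.1 + 1) := by
      have h3 : rd (2 * k.1, 1) = 4 * k.1 + 1 := by simp only [rd]; ring
      have h4 := congrArg Fin.val h1
      simp only [T] at h4
      rw [h3] at h4
      exact h4
    have hdiv : (4 * k.1 + 1) / 4 = k.1 := by omega
    have hlt4 : (4 * k.1 + 1) / 4 < n / 4 := by rw [hdiv]; exact k.2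
    have hfin : (⟨(4 * k.1 + 1) / 4, hlt4⟩ : Fin (n / 4)) = k := Fin.ext hdiv
    have hmod : (4 * k.1 + 1) % 4 = 1 := by omega
    unfold sw at h2
    rw [dif_pos hlt4, dif_pos hlt4, hfin, if_pos hmod] at h2
    cases hε : ε k <;> cases hε' : ε' k <;> simp [hε, hε'] at h2 ⊢
  unfold numSYT
  have := Nat.card_le_card_of_injective Φ hΦ
  rwa [Nat.card_eq_fintype_card, Fintype.card_fun, Fintype.card_bool, Fintype.card_fin] at this

/-! ### Exponentials beat polynomials -/

theorem growth (A : ℝ) (k : ℕ) : ∃ n₀ : ℕ, ∀ n ≥ n₀, A * (n : ℝ) ^ k < 4 ^ (n / 4) := by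
  have h := tendsto_pow_const_div_const_pow_of_one_lt k (r := 4) (by norm_num)
  -- `q ^ k / 4 ^ q → 0`
  have h2 := (h.const_mul (|A| * 8 ^ k)).eventually_lt_const
    (show |A| * 8 ^ k * 0 < 1 by norm_num)
  obtain ⟨q₀, hq⟩ := Filter.eventually_atTop.1 h2
  refine ⟨4 * q₀ + 4, fun n hn => ?_⟩
  have hq1 := hq (n / 4) (by omega)
  have hpos : (0 : ℝ) < 4 ^ (n / 4) := by positivity
  have hn8 : (n : ℝ) ≤ 8 * ((n / 4 : ℕ) : ℝ) := by
    have : n ≤ 8 * (n / 4) := by omega
    exact_mod_cast this
  calc A * (n : ℝ) ^ k ≤ |A| * (n : ℝ) ^ k := by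
        gcongr
        exact le_abs_self A
    _ ≤ |A| * (8 * ((n / 4 : ℕ) : ℝ)) ^ k := by gcongr
    _ = (|A| * 8 ^ k * (((n / 4 : ℕ) : ℝ) ^ k / 4 ^ (n / 4))) * 4 ^ (n / 4) := by
        field_simp
        ring
    _ < 1 * 4 ^ (n / 4) := by gcongr
    _ = 4 ^ (n / 4) := one_mul _

/-- For every `r ≥ 2` and every sufficiently large `n`, the law of the sum `λ_1 + ... + λ_r` of the
first `r` rows under the Plancherel measure on partitions of `n` is not log-concave: the inequality
`P(S_r = j)² ≥ P(S_r = j - 1) P(S_r = j + 1)` fails at `j = 2r - 1`. -/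
theorem result : ∀ r : ℕ, 2 ≤ r → ∃ n₀ : ℕ, ∀ n ≥ n₀,
    planchS n r (2 * r - 1) ^ 2 < planchS n r (2 * r - 2) * planchS n r (2 * r) := by
  intro r hr
  obtain ⟨n₀, hn₀⟩ := growth ((2 ^ (2 * r ^ 2)) ^ 2) (8 * r ^ 2)
  refine ⟨max n₀ (2 * r), fun n hn => ?_⟩
  have hn1 : n₀ ≤ n := (le_max_left _ _).trans hn
  have hn2 : 2 * r ≤ n := (le_max_right _ _).trans hn
  have hf : (0 : ℝ) < n.factorial := by exact_mod_cast n.factorial_pos
  have hup := planchS_upper (n := n) (r := r) (by omega) (by omega)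
  have hlow1 := planchS_lower (r := r) (card_hook hr (by omega : r ≤ n)) (firstRows_hook hr hn2)
    (one_le_numSYT _)
  have hlow2 := planchS_lower (r := r) (card_twoCol n) (firstRows_twoCol hn2) (numSYT_twoCol n)
  have hg := hn₀ n hn1
  calc planchS n r (2 * r - 1) ^ 2
      ≤ ((2 ^ (2 * r ^ 2) * ((n : ℝ) ^ (2 * r ^ 2)) ^ 2) / n.factorial) ^ 2 := by
        have := planchS_nonneg n r (2 * r - 1)
        gcongr
    _ = ((2 ^ (2 * r ^ 2)) ^ 2 * (n : ℝ) ^ (8 * r ^ 2)) / (n.factorial : ℝ) ^ 2 := by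
        rw [div_pow]
        congr 1
        ring
    _ < 4 ^ (n / 4) / (n.factorial : ℝ) ^ 2 := by gcongr
    _ = (((1 : ℕ) : ℝ) ^ 2 / n.factorial) * (((2 ^ (n / 4) : ℕ) : ℝ) ^ 2 / n.factorial) := by
        push_cast
        rw [← pow_mul, mul_comm (n / 4) 2, pow_mul]
        norm_num
        field_simp
    _ ≤ planchS n r (2 * r - 2) * planchS n r (2 * r) :=
        mul_le_mul hlow1 hlow2 (by positivity) (planchS_nonneg _ _ _)

end Pool.Agent.Results.MP_64a7c6_pr.PartialSumsNotLogConcave
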